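import Mathlib

/-!
# The two cofinality invariants of a ballean can differ by an arbitrarily large amount

For every cardinal `κ` there is a ballean with `cof_⋆ = 1` and `cof_* > κ`.
-/

universe u

open Cardinal Set

namespace Pool.Agent.Results.MP_fb12c6_gt.CofGap

variable {X : Type u}

/-- `E[x] = {y : (x, y) ∈ E}`. -/
def ball (E : Set (X × X)) (x : X) : Set X := {y | (x, y) ∈ E}

/-- `E[A] = ⋃_{a ∈ A} E[a]`. -/
def img (E : Set (X × X)) (A : Set X) : Set X := ⋃ a ∈ A, ball E a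

/-- The composition `E ∘ F⁻¹ = {(x, z) : ∃ y, (x, y) ∈ E, (y, z) ∈ F⁻¹}`. -/
def compInv (E F : Set (X × X)) : Set (X × X) := {p | ∃ y, (p.1, y) ∈ E ∧ (p.2, y) ∈ F}

/-- The three axioms of a ballean `(X, 𝓔)`. -/
structure IsBallean (𝓔 : Set (Set (X × X))) : Prop where
  diag : ∀ E ∈ 𝓔, ∀ x, (x, x) ∈ E
  comp : ∀ E ∈ 𝓔, ∀ F ∈ 𝓔, ∃ D ∈ 𝓔, compInv E F ⊆ D
  cover : ⋃₀ 𝓔 = Set.univ

/-- Bounded subsets of the ballean `(X, 𝓔)`. -/
def Bdd (𝓔 : Set (Set (X × X))) (B : Set X) : Prop := ∃ E ∈ 𝓔, ∃ x, B ⊆ ball E x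

/-- The entourages of the square `X × X` of the ballean `(X, 𝓔)`. -/
def square (𝓔 : Set (Set (X × X))) : Set (Set ((X × X) × (X × X))) :=
  {S | ∃ E₁ ∈ 𝓔, ∃ E₂ ∈ 𝓔, S = {p | (p.1.1, p.2.1) ∈ E₁ ∧ (p.1.2, p.2.2) ∈ E₂}}

/-- `cof_*(𝓔)`. -/
noncomputable def cofAst (𝓔 : Set (Set (X × X))) : Cardinal.{u} :=
  sInf {c | ∃ 𝓒 ⊆ 𝓔, #𝓒 = c ∧ ∀ E ∈ 𝓔, ∃ C ∈ 𝓒, Bdd (square 𝓔) (E \ C)}

/-- `cof_*(𝓔[A])`. -/
noncomputable def cofAstOn (𝓔 : Set (Set (X × X))) (A : Set X) : Cardinal.{u} :=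
  sInf {c | ∃ 𝓒 ⊆ 𝓔, #𝓒 = c ∧ ∀ E ∈ 𝓔, ∃ C ∈ 𝓒, Bdd 𝓔 (img E A \ img C A)}

/-- `cof_⋆(𝓔) = sup_A cof_*(𝓔[A])`. -/
noncomputable def cofStar (𝓔 : Set (Set (X × X))) : Cardinal.{u} :=
  ⨆ A : Set X, cofAstOn 𝓔 A

/-- All entourages with balls of cardinality at most `lam`. -/
def small (lam : Cardinal.{u}) : Set (Set (X × X)) :=
  {E | ∀ x, (x, x) ∈ E ∧ #(ball E x) ≤ lam ∧ #{y | (y, x) ∈ E} ≤ lam}

theorem card_biUnion_le {lam : Cardinal.{u}} (hl : ℵ₀ ≤ lam) {Y Z : Type u} (s : Set Y)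
    (hs : #s ≤ lam) (A : Y → Set Z) (hA : ∀ y ∈ s, #(A y) ≤ lam) :
    #(⋃ y ∈ s, A y : Set Z) ≤ lam := by
  refine (mk_biUnion_le A s).trans ?_
  refine (mul_le_mul' hs (ciSup_le' (a := lam) fun y : s => hA y.1 y.2)).trans ?_
  rw [mul_eq_self hl]

theorem small_isBallean {lam : Cardinal.{u}} (hl : ℵ₀ ≤ lam) :
    IsBallean (small (X := X) lam) where
  diag E hE x := (hE x).1
  comp E hE F hF := by
    refine ⟨compInv E F, fun x => ⟨⟨x, (hE x).1, (hF x).1⟩, ?_, ?_⟩, Subset.rfl⟩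
    · refine le_trans (mk_le_mk_of_subset ?_)
        (card_biUnion_le hl (ball E x) (hE x).2.1 (fun y => {z | (z, y) ∈ F})
          fun y _ => (hF y).2.2)
      rintro z ⟨y, h1, h2⟩
      exact mem_biUnion (x := y) h1 h2
    · refine le_trans (mk_le_mk_of_subset ?_)
        (card_biUnion_le hl (ball F x) (hF x).2.1 (fun y => {z | (z, y) ∈ E})
          fun y _ => (hE y).2.2)
      rintro z ⟨y, h1, h2⟩
      exact mem_biUnion (x := y) h2 h1
  cover := by
    refine Set.eq_univ_of_forall ?_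
    rintro ⟨x, y⟩
    refine ⟨{p | p.1 = p.2 ∨ p = (x, y)}, fun z => ⟨Or.inl rfl, ?_, ?_⟩, Or.inr rfl⟩
    · refine le_trans (mk_le_mk_of_subset (t := {z, y}) ?_) ?_
      · rintro w (h | h)
        · exact Or.inl h.symm
        · exact Or.inr (congrArg Prod.snd h)
      · exact le_trans (Set.Finite.lt_aleph0 (Set.toFinite _)).le hl
    · refine le_trans (mk_le_mk_of_subset (t := {z, x}) ?_) ?_
      · rintro w (h | h)
        · exact Or.inl h
        · exact Or.inr (congrArg Prod.fst h)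
      · exact le_trans (Set.Finite.lt_aleph0 (Set.toFinite _)).le hl

theorem card_le_of_bdd {lam : Cardinal.{u}} {B : Set X} (h : Bdd (small (X := X) lam) B) :
    #B ≤ lam := by
  obtain ⟨E, hE, x, hB⟩ := h
  exact (mk_le_mk_of_subset hB).trans (hE x).2.1

theorem diag_small {lam : Cardinal.{u}} (hl : ℵ₀ ≤ lam) :
    {p : X × X | p.1 = p.2} ∈ small (X := X) lam := by
  intro x
  refine ⟨rfl, ?_, ?_⟩
  · refine le_trans (mk_le_mk_of_subset (t := {x}) ?_) ?_
    · intro y hy
      exact (Eq.symm hy : y = x)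
    · exact le_trans (Set.Finite.lt_aleph0 (Set.toFinite _)).le hl
  · refine le_trans (mk_le_mk_of_subset (t := {x}) ?_) ?_
    · intro y hy
      exact (hy : y = x)
    · exact le_trans (Set.Finite.lt_aleph0 (Set.toFinite _)).le hl

theorem bdd_of_card_le {lam : Cardinal.{u}} (hl : ℵ₀ ≤ lam) (x : X) {B : Set X}
    (h : #B ≤ lam) : Bdd (small (X := X) lam) B := by
  refine ⟨{p | p.1 = p.2 ∨ (p.1 = x ∧ p.2 ∈ B)}, fun z => ⟨Or.inl rfl, ?_, ?_⟩, x,
    fun y hy => Or.inr ⟨rfl, hy⟩⟩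
  · refine le_trans (mk_le_mk_of_subset (t := {z} ∪ B) ?_) ?_
    · rintro w (h | h)
      · exact Or.inl (Eq.symm h)
      · exact Or.inr h.2
    · refine (mk_union_le _ _).trans ?_
      refine (add_le_add (le_trans (Set.Finite.lt_aleph0 (Set.toFinite _)).le hl) h).trans ?_
      rw [add_eq_self hl]
  · refine le_trans (mk_le_mk_of_subset (t := {z, x}) ?_) ?_
    · rintro w (h | h)
      · exact Or.inl h
      · exact Or.inr h.1
    · exact le_trans (Set.Finite.lt_aleph0 (Set.toFinite _)).le hl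

theorem cofAstOn_eq_one {lam : Cardinal.{u}} (hl : ℵ₀ ≤ lam) (hX : #X = Order.succ lam)
    (x₀ : X) (A : Set X) : cofAstOn (small (X := X) lam) A = 1 := by
  apply le_antisymm
  · refine csInf_le' ?_
    by_cases hA : #A ≤ lam
    · refine ⟨{{p : X × X | p.1 = p.2}}, ?_, by simp, ?_⟩
      · rintro _ rfl
        exact diag_small hl
      · intro E hE
        refine ⟨_, rfl, bdd_of_card_le hl x₀ ?_⟩
        refine (mk_le_mk_of_subset (t := img E A) sdiff_subset).trans ?_
        exact card_biUnion_le hl A hA _ fun y _ => (hE y).2.1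
    · have hA' : #A = #X := by
        refine le_antisymm (mk_set_le A) ?_
        rw [hX]
        exact Order.succ_le_of_lt (not_le.mp hA)
      obtain ⟨f⟩ := Cardinal.eq.mp hA'
      set C : Set (X × X) := {p | p.1 = p.2 ∨ ∃ a : A, p = (a.1, f a)} with hC
      have hCs : C ∈ small (X := X) lam := by
        intro z
        refine ⟨Or.inl rfl, ?_, ?_⟩
        · refine le_trans (mk_le_mk_of_subset
            (t := {z} ∪ {w | ∃ h : z ∈ A, w = f ⟨z, h⟩}) ?_) ?_
          · rintro w (h | ⟨a, h⟩)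
            · exact Or.inl (Eq.symm h)
            · right
              have h1 : z = a.1 := congrArg Prod.fst h
              have h2 : w = f a := congrArg Prod.snd h
              subst h1
              exact ⟨a.2, h2⟩
          · refine le_trans (Set.Finite.lt_aleph0 ?_).le hl
            refine (Set.finite_singleton z).union ?_
            refine Set.Subsingleton.finite ?_
            rintro w ⟨h, rfl⟩ w' ⟨h', rfl⟩
            rfl
        · refine le_trans (mk_le_mk_of_subset (t := {z, (f.symm z).1}) ?_) ?_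
          · rintro w (h | ⟨a, h⟩)
            · exact Or.inl h
            · right
              have h1 : w = a.1 := congrArg Prod.fst h
              have h2 : z = f a := congrArg Prod.snd h
              subst h2
              simp [h1]
          · exact le_trans (Set.Finite.lt_aleph0 (Set.toFinite _)).le hl
      refine ⟨{C}, ?_, by simp, ?_⟩
      · rintro _ rfl
        exact hCs
      · intro E hE
        refine ⟨C, rfl, bdd_of_card_le hl x₀ ?_⟩
        have : img C A = Set.univ := by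
          refine eq_univ_of_forall fun y => ?_
          refine mem_biUnion (x := (f.symm y).1) (f.symm y).2 (Or.inr ⟨f.symm y, ?_⟩)
          simp
        rw [this, sdiff_univ]
        simp
  · rw [Cardinal.one_le_iff_ne_zero]
    intro h0
    have hne : {c : Cardinal.{u} | ∃ 𝓒 ⊆ small (X := X) lam, #𝓒 = c ∧
        ∀ E ∈ small (X := X) lam, ∃ C ∈ 𝓒, Bdd (small (X := X) lam) (img E A \ img C A)}.Nonempty := by
      refine ⟨_, small (X := X) lam, Subset.rfl, rfl, fun E hE => ⟨E, hE, ?_⟩⟩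
      rw [sdiff_self]
      exact bdd_of_card_le hl x₀ (by simp)
    have hmem := csInf_mem hne
    obtain ⟨𝓒, -, h1, h2⟩ := hmem
    have h3 : #𝓒 = 0 := h1.trans h0
    obtain ⟨C, hC, -⟩ := h2 _ (diag_small hl)
    exact (Cardinal.mk_eq_zero_iff.mp h3).elim ⟨C, hC⟩

/-- An injective function avoiding prescribed small sets. -/
theorem exists_inj_avoid {Y : Type u} [LinearOrder Y] [WellFoundedLT Y] {lam : Cardinal.{u}}
    (hl : ℵ₀ ≤ lam) (hY : lam < #Y) (hI : ∀ y : Y, #(Iio y) ≤ lam) (S : Y → Set Y)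
    (hS : ∀ y, #(S y) ≤ lam) :
    ∃ f : Y → Y, Function.Injective f ∧ ∀ y, f y ∉ S y := by
  classical
  have key : ∀ (y : Y) (g : ∀ z, z < y → Y),
      ∃ w, w ∉ S y ∪ {v | ∃ (z : Y) (h : z < y), v = g z h} := by
    intro y g
    by_contra hcon
    push Not at hcon
    have h1 : #Y ≤ lam := by
      rw [← mk_univ]
      refine (mk_le_mk_of_subset (fun w _ => hcon w)).trans ?_
      refine (mk_union_le _ _).trans ?_
      have h2 : #{v | ∃ (z : Y) (h : z < y), v = g z h} ≤ lam := by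
        have : {v | ∃ (z : Y) (h : z < y), v = g z h} = range (fun z : Iio y => g z.1 z.2) := by
          ext v
          constructor
          · rintro ⟨z, h, rfl⟩
            exact ⟨⟨z, h⟩, rfl⟩
          · rintro ⟨z, rfl⟩
            exact ⟨z.1, z.2, rfl⟩
        rw [this]
        exact mk_range_le.trans (hI y)
      refine (add_le_add (hS y) h2).trans ?_
      rw [add_eq_self hl]
    exact absurd hY (not_lt.mpr h1)
  choose F hF using key
  have wf : WellFounded ((· < ·) : Y → Y → Prop) := wellFounded_lt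
  let f : Y → Y := wf.fix (fun y g => F y g)
  have hf : ∀ y, f y = F y (fun z _ => f z) := fun y => wf.fix_eq _ y
  have hlt : ∀ y z, z < y → f y ≠ f z := by
    intro y z hz heq
    have := hF y (fun z _ => f z)
    rw [← hf y] at this
    exact this (Or.inr ⟨z, hz, heq⟩)
  refine ⟨f, ?_, ?_⟩
  · intro y z h
    rcases lt_trichotomy y z with h' | h' | h'
    · exact absurd h.symm (hlt z y h')
    · exact h'
    · exact absurd h (hlt y z h')
  · intro y hy
    have := hF y (fun z _ => f z)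
    rw [← hf y] at this
    exact this (Or.inl hy)

theorem lt_cofAst {Y : Type u} [LinearOrder Y] [WellFoundedLT Y] {lam : Cardinal.{u}}
    (hl : ℵ₀ ≤ lam) (hY : #Y = Order.succ lam) (hI : ∀ y : Y, #(Iio y) ≤ lam) (y₀ : Y) :
    Order.succ lam < cofAst (small (X := Y) lam) := by
  have hlt : lam < #Y := by rw [hY]; exact Order.lt_succ lam
  have hne : {c : Cardinal.{u} | ∃ 𝓒 ⊆ small (X := Y) lam, #𝓒 = c ∧
      ∀ E ∈ small (X := Y) lam, ∃ C ∈ 𝓒, Bdd (square (small (X := Y) lam)) (E \ C)}.Nonempty := by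
    refine ⟨_, small (X := Y) lam, Subset.rfl, rfl, fun E hE => ⟨E, hE, ?_⟩⟩
    rw [sdiff_self]
    exact ⟨_, ⟨E, hE, E, hE, rfl⟩, (y₀, y₀), empty_subset _⟩
  have hmem := csInf_mem hne
  obtain ⟨𝓒, hsub, h1, h2⟩ := hmem
  have h1' : #𝓒 = cofAst (small (X := Y) lam) := h1
  rw [← h1']
  by_contra hle
  rw [not_lt, ← hY] at hle
  have hnonempty : Nonempty 𝓒 := by
    obtain ⟨C, hC, -⟩ := h2 _ (diag_small hl)
    exact ⟨⟨C, hC⟩⟩
  obtain ⟨g, hg⟩ : ∃ g : Y → 𝓒, Function.Surjective g := by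
    obtain ⟨e⟩ := Cardinal.le_def _ _ |>.mp hle
    exact ⟨Function.invFun e, Function.invFun_surjective e.injective⟩
  obtain ⟨f, hinj, hf⟩ := exists_inj_avoid hl hlt hI
    (fun y => ⋃ i ∈ Iic y, ball (g i).1 y) (by
      intro y
      refine card_biUnion_le hl (Iic y) ?_ _ fun i _ => (hsub (g i).2 y).2.1
      rw [← Iio_insert]
      refine (mk_insert_le).trans ?_
      refine (add_le_add (hI y) (one_le_aleph0.trans hl)).trans ?_
      rw [add_eq_self hl])
  set E : Set (Y × Y) := {p | p.1 = p.2 ∨ p.2 = f p.1} with hE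
  have hEs : E ∈ small (X := Y) lam := by
    intro z
    refine ⟨Or.inl rfl, ?_, ?_⟩
    · refine le_trans (mk_le_mk_of_subset (t := {z, f z}) ?_) ?_
      · rintro w (h | h)
        · exact Or.inl (Eq.symm h)
        · exact Or.inr h
      · exact le_trans (Set.Finite.lt_aleph0 (Set.toFinite _)).le hl
    · refine le_trans (Set.Finite.lt_aleph0 ?_).le hl
      refine ((Set.finite_singleton z).union
        (Set.Subsingleton.finite (s := {w | z = f w}) ?_)).subset ?_
      · intro a ha b hb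
        exact hinj ((Eq.symm ha).trans hb)
      · rintro w (h | h)
        · exact Or.inl h
        · exact Or.inr h
  obtain ⟨C, hC, hB⟩ := h2 E hEs
  obtain ⟨i, hi⟩ := hg ⟨C, hC⟩
  obtain ⟨S, ⟨E₁, hE₁, E₂, hE₂, rfl⟩, p, hp⟩ := hB
  have h3 : Ici i ⊆ ball E₁ p.1 := by
    intro y hy
    have h4 : (y, f y) ∈ E \ C := by
      refine ⟨Or.inr rfl, fun hmem => hf y ?_⟩
      refine mem_biUnion (x := i) hy ?_
      rw [hi]
      exact hmem
    exact (hp h4).1
  have h5 : #(Ici i) ≤ lam := (mk_le_mk_of_subset h3).trans (hE₁ p.1).2.1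
  have h6 : #Y ≤ lam := by
    rw [← mk_univ, ← Iio_union_Ici (a := i)]
    refine (mk_union_le _ _).trans ?_
    refine (add_le_add (hI i) h5).trans ?_
    rw [add_eq_self hl]
  exact absurd hlt (not_lt.mpr h6)

/-- For every cardinal `κ` there is a ballean with `cof_⋆(𝓔) = 1` and `cof_*(𝓔) > κ`. In
particular `cof_⋆(𝓔) < cof_*(𝓔)` can happen. -/
theorem result (κ : Cardinal.{u}) :
    ∃ (X : Type u) (𝓔 : Set (Set (X × X))),
      IsBallean 𝓔 ∧ cofStar 𝓔 = 1 ∧ κ < cofAst 𝓔 := by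
  set lam : Cardinal.{u} := max κ ℵ₀ with hlam
  have hl : ℵ₀ ≤ lam := le_max_right _ _
  refine ⟨(Order.succ lam).ord.ToType, small lam, small_isBallean hl, ?_, ?_⟩
  · have hX : #(Order.succ lam).ord.ToType = Order.succ lam := mk_ord_toType _
    have hne : Nonempty (Order.succ lam).ord.ToType := by
      rw [← Cardinal.mk_ne_zero_iff, hX]
      exact (lt_of_le_of_lt zero_le (Order.lt_succ lam)).ne'
    obtain ⟨x₀⟩ := hne
    unfold cofStar
    simp only [cofAstOn_eq_one hl hX x₀]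
    exact ciSup_const
  · have hX : #(Order.succ lam).ord.ToType = Order.succ lam := mk_ord_toType _
    have hne : Nonempty (Order.succ lam).ord.ToType := by
      rw [← Cardinal.mk_ne_zero_iff, hX]
      exact (lt_of_le_of_lt zero_le (Order.lt_succ lam)).ne'
    obtain ⟨x₀⟩ := hne
    refine lt_of_le_of_lt ((le_max_left κ ℵ₀).trans (Order.le_succ lam))
      (lt_cofAst hl hX ?_ x₀)
    intro y
    have h := mk_Iio_lt y (by simp)
    rw [hX] at h
    exact Order.lt_succ_iff.mp h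

end Pool.Agent.Results.MP_fb12c6_gt.CofGap
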